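import Pool.Agent.helper63.NU.Final2

set_option autoImplicit false

/-!
# MP_737c0a_gt, Q1: complex projective space maximizes Perelman's entropy among Fano manifolds

For every compact connected complex manifold `M` of dimension `n ≥ 1` and every Kähler metric `h` on
`M` whose Kähler form is in the class `lam · 2π c₁(M)`, `lam > 0`:
`ν(M, h) ≤ ν(ℂP^n, g_FS)`, with equality if and only if there is a biholomorphic map
`Φ : M → ℂP^n` and a constant `c > 0` with `c · h = Φ^* g_FS`.
The value is `ν(ℂP^n, g_FS) = n log (n + 1) - log n! - n`.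
-/

open MeasureTheory
open scoped ContDiff Manifold

namespace Pool.Agent.Results.MP_737c0a_gt.ProjectiveSpaceMaximal

open Pool.Agent.helper63.NU

theorem result.{u} (n : ℕ) (hn : 0 < n) :
    (IsKahler (hFS n) ∧ IsVol (hFS n) (dvFS n) ∧
      nu (hFS n) (dvFS n) =
        ((n * Real.log (n + 1) - Real.log n.factorial - n : ℝ) : EReal)) ∧
    ∀ (M : Type u) [TopologicalSpace M] [ChartedSpace (E n) M] [IsManifold 𝓘(ℂ, E n) ω M]
      [CompactSpace M] [T2Space M] [ConnectedSpace M] [MeasurableSpace M] [BorelSpace M]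
      (h : MFam n M) (lam : ℝ) (dv : Measure M),
      0 < lam → IsKahler h → InClass lam h → IsVol h dv →
      nu h dv ≤ nu (hFS n) (dvFS n) ∧
      (nu h dv = nu (hFS n) (dvFS n) ↔
        ∃ (Φ : Diffeomorph 𝓘(ℂ, E n) 𝓘(ℂ, E n) M (CP n) ω) (c : ℝ),
          0 < c ∧ IsoUpTo c h (hFS n) Φ) :=
  ⟨⟨isKahler_hFS, isVol_dvFS, nuFS_eq hn⟩, fun _ _ _ _ _ _ _ _ _ _ _ _ hlam hK hcl hv =>
    main hn hlam hK hcl hv⟩

end Pool.Agent.Results.MP_737c0a_gt.ProjectiveSpaceMaximal
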